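import Pool.Agent.H91.VF.Defs

/-!
# Nikulin's conditions for the complement of `U(2)`

`T` is a primitive sublattice of an even unimodular lattice `L` and its orthogonal complement `N`
contains `e`, `f` with `e² = f² = 0`, `ef = 2`.  Then `l(A_{T,p}) ≤ rk N - 2` for all odd
primes `p`, and `l(A_{T,2}) ≤ rk N - 1` or the discriminant form of `T` splits off `u(2)`.
-/

namespace H91.VF.Nik

/-- A functional on a saturated submodule extends. -/
theorem exists_ext {L : Type} [AddCommGroup L] [Module.Free ℤ L] [Module.Finite ℤ L]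
    (N : Submodule ℤ L) (hN : ∀ (x : L) (n : ℤ), n ≠ 0 → n • x ∈ N → x ∈ N)
    (φ : N →ₗ[ℤ] ℤ) : ∃ ψ : L →ₗ[ℤ] ℤ, ∀ x : N, ψ x = φ x := by
  have htf : Module.IsTorsionFree ℤ (L ⧸ N) := by
    rw [Module.isTorsionFree_iff_smul_eq_zero]
    intro n x h
    by_cases hn : n = 0
    · exact Or.inl hn
    · right
      obtain ⟨y, rfl⟩ := N.mkQ_surjective x
      rw [← map_smul, Submodule.mkQ_apply, Submodule.Quotient.mk_eq_zero] at h
      rw [Submodule.mkQ_apply, Submodule.Quotient.mk_eq_zero]
      exact hN y n hn h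
  have : Module.Free ℤ (L ⧸ N) := Module.free_of_finite_type_torsion_free'
  obtain ⟨s, hs⟩ := Module.projective_lifting_property N.mkQ LinearMap.id N.mkQ_surjective
  have hmem : ∀ x : L, x - s (N.mkQ x) ∈ N := by
    intro x
    rw [← Submodule.Quotient.mk_eq_zero, ← Submodule.mkQ_apply, map_sub]
    have := LinearMap.congr_fun hs (N.mkQ x)
    simp only [LinearMap.comp_apply, LinearMap.id_apply] at this
    rw [this, sub_self]
  let r : L →ₗ[ℤ] N := LinearMap.codRestrict N (LinearMap.id - s ∘ₗ N.mkQ) hmem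
  refine ⟨φ ∘ₗ r, fun x => ?_⟩
  rw [LinearMap.comp_apply]
  congr 1
  apply Subtype.ext
  have h1 : N.mkQ (x : L) = 0 := by
    rw [Submodule.mkQ_apply, Submodule.Quotient.mk_eq_zero]
    exact x.2
  show (x : L) - s (N.mkQ x) = x
  rw [h1, map_zero, sub_zero]

/-- A vector outside a saturated submodule is detected by a functional killing the submodule. -/
theorem exists_sep {L : Type} [AddCommGroup L] [Module.Free ℤ L] [Module.Finite ℤ L]
    (N : Submodule ℤ L) (hN : ∀ (x : L) (n : ℤ), n ≠ 0 → n • x ∈ N → x ∈ N)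
    (x : L) (hx : x ∉ N) : ∃ ψ : L →ₗ[ℤ] ℤ, (∀ y ∈ N, ψ y = 0) ∧ ψ x ≠ 0 := by
  have htf : Module.IsTorsionFree ℤ (L ⧸ N) := by
    rw [Module.isTorsionFree_iff_smul_eq_zero]
    intro n x h
    by_cases hn : n = 0
    · exact Or.inl hn
    · right
      obtain ⟨y, rfl⟩ := N.mkQ_surjective x
      rw [← map_smul, Submodule.mkQ_apply, Submodule.Quotient.mk_eq_zero] at h
      rw [Submodule.mkQ_apply, Submodule.Quotient.mk_eq_zero]
      exact hN y n hn h
  have : Module.Free ℤ (L ⧸ N) := Module.free_of_finite_type_torsion_free'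
  have hx0 : N.mkQ x ≠ 0 := by
    rw [Submodule.mkQ_apply, Ne, Submodule.Quotient.mk_eq_zero]
    exact hx
  let b := Module.finBasis ℤ (L ⧸ N)
  have hne : ∃ i, b.repr (N.mkQ x) i ≠ 0 := by
    by_contra h
    push Not at h
    apply hx0
    have : b.repr (N.mkQ x) = 0 := Finsupp.ext h
    exact (LinearEquiv.map_eq_zero_iff _).mp this
  obtain ⟨i, hi⟩ := hne
  refine ⟨b.coord i ∘ₗ N.mkQ, fun y hy => ?_, ?_⟩
  · rw [LinearMap.comp_apply, Submodule.mkQ_apply, (Submodule.Quotient.mk_eq_zero _).mpr hy,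
      map_zero]
  · rw [LinearMap.comp_apply, Module.Basis.coord_apply]
    exact hi

section

variable (L T : Lat) (i : T.V →ₗ[ℤ] L.V)

/-- The orthogonal complement of `i(T)`. -/
def perp : Submodule ℤ L.V where
  carrier := {n | ∀ t, L.q n (i t) = 0}
  add_mem' := by
    intro a b ha hb t
    rw [map_add, LinearMap.add_apply, ha t, hb t, add_zero]
  zero_mem' := by
    intro t
    rw [map_zero, LinearMap.zero_apply]
  smul_mem' := by
    intro c x hx t
    rw [map_smul, LinearMap.smul_apply, hx t, smul_zero]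

theorem mem_perp {n : L.V} : n ∈ perp L T i ↔ ∀ t, L.q n (i t) = 0 := Iff.rfl

theorem perp_sat (x : L.V) (n : ℤ) (hn : n ≠ 0) (h : n • x ∈ perp L T i) :
    x ∈ perp L T i := by
  intro t
  have h1 := h t
  rw [map_smul, LinearMap.smul_apply, smul_eq_mul] at h1
  exact (mul_eq_zero.mp h1).resolve_left hn

/-- Every functional on `T` is the product with a vector of `L`. -/
theorem rep_T (hU : L.Unimod) (hi : PrimEmb T L i) (l : T.V →ₗ[ℤ] ℤ) :
    ∃ x : L.V, ∀ t, L.q x (i t) = l t := by
  let e : T.V ≃ₗ[ℤ] LinearMap.range i := LinearEquiv.ofInjective i hi.inj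
  obtain ⟨ψ, hψ⟩ := exists_ext (LinearMap.range i) (fun x n hn h => hi.sat x n hn h)
    (l ∘ₗ e.symm.toLinearMap)
  obtain ⟨x, hx⟩ := hU.2 ψ
  refine ⟨x, fun t => ?_⟩
  rw [hx]
  have h1 := hψ (e t)
  rw [LinearMap.comp_apply, LinearEquiv.coe_coe, LinearEquiv.symm_apply_apply] at h1
  rw [← h1]
  rfl

/-- Every functional on `N` is the product with a vector of `L`. -/
theorem rep_N (hU : L.Unimod) (l : perp L T i →ₗ[ℤ] ℤ) :
    ∃ x : L.V, ∀ n : perp L T i, L.q x n = l n := by
  obtain ⟨ψ, hψ⟩ := exists_ext (perp L T i) (perp_sat L T i) l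
  obtain ⟨x, hx⟩ := hU.2 ψ
  exact ⟨x, fun n => by rw [hx, hψ]⟩

/-- `N^⊥ = T`. -/
theorem perp_perp (hU : L.Unimod) (hi : PrimEmb T L i) (x : L.V)
    (hx : ∀ n : perp L T i, L.q x n = 0) : x ∈ LinearMap.range i := by
  by_contra h
  obtain ⟨ψ, h1, h2⟩ := exists_sep (LinearMap.range i) (fun x n hn h => hi.sat x n hn h) x h
  obtain ⟨y, hy⟩ := hU.2 ψ
  have h3 : y ∈ perp L T i := by
    intro t
    rw [hy]
    exact h1 _ ⟨t, rfl⟩
  apply h2
  rw [← hy, L.symm]
  exact hx ⟨y, h3⟩

/-- `rk N = rk L - rk T`. -/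
theorem finrank_perp (hU : L.Unimod) (hi : PrimEmb T L i) :
    Module.finrank ℤ (perp L T i) + T.rk = L.rk := by
  let ρ : L.V →ₗ[ℤ] (T.V →ₗ[ℤ] ℤ) := (LinearMap.lcomp ℤ ℤ i) ∘ₗ L.q
  have hρ : ∀ x t, ρ x t = L.q x (i t) := fun x t => rfl
  have hsurj : Function.Surjective ρ := by
    intro l
    obtain ⟨x, hx⟩ := rep_T L T i hU hi l
    exact ⟨x, LinearMap.ext fun t => hx t⟩
  have hker : LinearMap.ker ρ = perp L T i := by
    ext x
    rw [LinearMap.mem_ker, mem_perp]
    constructor
    · intro h t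
      rw [← hρ, h, LinearMap.zero_apply]
    · intro h
      exact LinearMap.ext fun t => h t
  have h1 := Submodule.finrank_quotient_add_finrank (LinearMap.ker ρ)
  have h2 : Module.finrank ℤ (L.V ⧸ LinearMap.ker ρ) = T.rk := by
    rw [LinearEquiv.finrank_eq (ρ.quotKerEquivOfSurjective hsurj)]
    exact Module.finrank_linearMap_self ℤ ℤ T.V
  rw [h2, hker] at h1
  rw [add_comm]
  exact h1

/-- The key lemma: if modulo `N` and up to a factor prime to `p` every functional on `N` lies in
`D`, then the `p`-part of the discriminant group of `T` is generated by `rk D` elements. -/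
theorem genP_core (hU : L.Unimod) (hi : PrimEmb T L i) (p : ℕ) (m : ℤ) (hm : ¬ (p : ℤ) ∣ m)
    (D : Submodule ℤ (perp L T i →ₗ[ℤ] ℤ))
    (hD : ∀ l : perp L T i →ₗ[ℤ] ℤ, ∃ n : perp L T i,
      m • l - (L.q n) ∘ₗ (perp L T i).subtype ∈ D) :
    T.GenP p (Module.finrank ℤ D) := by
  let b := Module.finBasis ℤ D
  choose x hx using fun j => rep_N L T i hU (b j : perp L T i →ₗ[ℤ] ℤ)
  refine ⟨fun j => (L.q (x j)) ∘ₗ i, fun l => ?_⟩
  obtain ⟨y, hy⟩ := rep_T L T i hU hi l
  obtain ⟨n, hn⟩ := hD ((L.q y) ∘ₗ (perp L T i).subtype)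
  set d : D := ⟨_, hn⟩ with hd
  let c := b.repr d
  have hsum : ∑ j, c j • b j = d := b.sum_repr d
  have hz : m • y - n - ∑ j, c j • x j ∈ LinearMap.range i := by
    apply perp_perp L T i hU hi
    intro n'
    have h1 : ((∑ j, c j • b j : D) : perp L T i →ₗ[ℤ] ℤ) n' = d.1 n' := by rw [hsum]
    rw [hd] at h1
    simp only [LinearMap.sub_apply, LinearMap.smul_apply, LinearMap.comp_apply,
      Submodule.subtype_apply, smul_eq_mul] at h1
    rw [Submodule.coe_sum, LinearMap.sum_apply] at h1
    have h2 : ∀ j, ((c j • b j : D) : perp L T i →ₗ[ℤ] ℤ) n' = c j * L.q (x j) n' := by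
      intro j
      rw [Submodule.coe_smul, LinearMap.smul_apply, smul_eq_mul, hx j n']
    rw [Finset.sum_congr rfl fun j _ => h2 j] at h1
    rw [map_sub, map_sub, map_smul, map_sum, LinearMap.sub_apply, LinearMap.sub_apply,
      LinearMap.smul_apply, LinearMap.sum_apply, smul_eq_mul]
    rw [Finset.sum_congr rfl fun j _ => by
      rw [map_smul, LinearMap.smul_apply, smul_eq_mul]]
    rw [h1]
    ring
  obtain ⟨t, ht⟩ := hz
  refine ⟨m, t, fun j => c j, hm, LinearMap.ext fun t' => ?_⟩
  rw [LinearMap.smul_apply, LinearMap.add_apply, LinearMap.sum_apply, ← hy t', ← hi.isom t t', ht]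
  rw [map_sub, map_sub, map_smul, map_sum, LinearMap.sub_apply, LinearMap.sub_apply,
      LinearMap.smul_apply, LinearMap.sum_apply, n.2 t', smul_eq_mul]
  rw [Finset.sum_congr rfl fun j _ => by
      rw [map_smul, LinearMap.smul_apply, smul_eq_mul]]
  simp only [LinearMap.smul_apply, LinearMap.comp_apply, smul_eq_mul]
  ring

/-- Rank of the functionals killing one vector. -/
theorem finrank_ker_one (P : Type) [AddCommGroup P] [Module.Free ℤ P] [Module.Finite ℤ P]
    (g : P →ₗ[ℤ] ℤ) (a : P) (ha : g a ≠ 0) :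
    Module.finrank ℤ (LinearMap.ker g) = Module.finrank ℤ P - 1 := by
  have h1 := Submodule.finrank_quotient_add_finrank (LinearMap.ker g)
  have h2 : Module.finrank ℤ (P ⧸ LinearMap.ker g) = Module.finrank ℤ (LinearMap.range g) :=
    LinearEquiv.finrank_eq g.quotKerEquivRange
  have h3 : Module.finrank ℤ (LinearMap.range g) ≤ 1 := by
    have := Submodule.finrank_le (LinearMap.range g)
    rwa [Module.finrank_self] at this
  have h4 : 0 < Module.finrank ℤ (LinearMap.range g) := by
    rw [Module.finrank_pos_iff_exists_ne_zero]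
    exact ⟨⟨g a, a, rfl⟩, fun h => ha (congrArg Subtype.val h)⟩
  omega

/-- Rank of the functionals killing two vectors. -/
theorem finrank_ker_two (P : Type) [AddCommGroup P] [Module.Free ℤ P] [Module.Finite ℤ P]
    (g h : P →ₗ[ℤ] ℤ) (a b : P) (ha : g a ≠ 0) (hb : h b ≠ 0) (hga : h a = 0) (hgb : g b = 0) :
    Module.finrank ℤ (LinearMap.ker g ⊓ LinearMap.ker h : Submodule ℤ P)
      = Module.finrank ℤ P - 2 := by
  have h0 : LinearMap.ker (g.prod h) = LinearMap.ker g ⊓ LinearMap.ker h := LinearMap.ker_prod g h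
  rw [← h0]
  have h1 := Submodule.finrank_quotient_add_finrank (LinearMap.ker (g.prod h))
  have h2 : Module.finrank ℤ (P ⧸ LinearMap.ker (g.prod h))
      = Module.finrank ℤ (LinearMap.range (g.prod h)) :=
    LinearEquiv.finrank_eq (g.prod h).quotKerEquivRange
  have h3 : Module.finrank ℤ (LinearMap.range (g.prod h)) ≤ 2 := by
    have := Submodule.finrank_le (LinearMap.range (g.prod h))
    rwa [Module.finrank_prod, Module.finrank_self] at this
  have h4 : 2 ≤ Module.finrank ℤ (LinearMap.range (g.prod h)) := by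
    have hli : LinearIndependent ℤ
        ![(⟨(g.prod h) a, a, rfl⟩ : LinearMap.range (g.prod h)), ⟨(g.prod h) b, b, rfl⟩] := by
      rw [LinearIndependent.pair_iff]
      intro s t hst
      have h5 := congrArg Subtype.val hst
      have h6 : s * g a + t * g b = 0 := congrArg Prod.fst h5
      have h7 : s * h a + t * h b = 0 := congrArg Prod.snd h5
      rw [hgb, mul_zero, add_zero] at h6
      rw [hga, mul_zero, zero_add] at h7
      exact ⟨(mul_eq_zero.mp h6).resolve_right ha, (mul_eq_zero.mp h7).resolve_right hb⟩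
    have := hli.fintype_card_le_finrank
    simpa using this
  omega

/-- **Nikulin's conditions hold if `T^⊥` contains `U(2)`.** -/
theorem nik (hE : L.Even) (hU : L.Unimod) (hi : PrimEmb T L i) (e f : L.V)
    (he : ∀ t, L.q e (i t) = 0) (hf : ∀ t, L.q f (i t) = 0)
    (hee : L.q e e = 0) (hff : L.q f f = 0) (hef : L.q e f = 2) :
    (∀ p : ℕ, p.Prime → p ≠ 2 → T.GenP p (L.rk - T.rk - 2)) ∧
    (T.GenP 2 (L.rk - T.rk - 1) ∨ T.SplitU2) := by
  have hrk := finrank_perp L T i hU hi
  have hrk' : Module.finrank ℤ (perp L T i →ₗ[ℤ] ℤ) = L.rk - T.rk := by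
    rw [Module.finrank_linearMap_self]
    omega
  have hfe : L.q f e = 2 := by rw [L.symm, hef]
  let e' : perp L T i := ⟨e, he⟩
  let f' : perp L T i := ⟨f, hf⟩
  constructor
  · intro p hp hp2
    have h2 : ¬ (p : ℤ) ∣ 2 := by
      intro h
      have h3 : p ∣ 2 := by exact_mod_cast h
      exact hp2 ((Nat.prime_dvd_prime_iff_eq hp Nat.prime_two).mp h3)
    have hcore := genP_core L T i hU hi p 2 h2
      (LinearMap.ker (LinearMap.applyₗ e' : (perp L T i →ₗ[ℤ] ℤ) →ₗ[ℤ] ℤ) ⊓
        LinearMap.ker (LinearMap.applyₗ f' : (perp L T i →ₗ[ℤ] ℤ) →ₗ[ℤ] ℤ)) (fun l => ⟨l f' • e' + l e' • f', by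
        constructor
        · rw [SetLike.mem_coe, LinearMap.mem_ker]
          show (2 : ℤ) • l e' - L.q ((l f' • e' + l e' • f' : perp L T i) : L.V) e = 0
          rw [Submodule.coe_add, Submodule.coe_smul, Submodule.coe_smul, map_add, map_smul,
            map_smul, LinearMap.add_apply, LinearMap.smul_apply, LinearMap.smul_apply]
          show (2 : ℤ) • l e' - (l f' • L.q e e + l e' • L.q f e) = 0
          rw [hee, hfe]
          simp only [smul_eq_mul]
          ring
        · rw [SetLike.mem_coe, LinearMap.mem_ker]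
          show (2 : ℤ) • l f' - L.q ((l f' • e' + l e' • f' : perp L T i) : L.V) f = 0
          rw [Submodule.coe_add, Submodule.coe_smul, Submodule.coe_smul, map_add, map_smul,
            map_smul, LinearMap.add_apply, LinearMap.smul_apply, LinearMap.smul_apply]
          show (2 : ℤ) • l f' - (l f' • L.q e f + l e' • L.q f f) = 0
          rw [hff, hef]
          simp only [smul_eq_mul]
          ring⟩)
    have hr := finrank_ker_two (perp L T i →ₗ[ℤ] ℤ)
      (LinearMap.applyₗ e' : (perp L T i →ₗ[ℤ] ℤ) →ₗ[ℤ] ℤ)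
      (LinearMap.applyₗ f' : (perp L T i →ₗ[ℤ] ℤ) →ₗ[ℤ] ℤ)
      ((L.q f) ∘ₗ (perp L T i).subtype) ((L.q e) ∘ₗ (perp L T i).subtype)
      (by show L.q f e ≠ 0; rw [hfe]; norm_num)
      (by show L.q e f ≠ 0; rw [hef]; norm_num)
      (by show L.q f f = 0; exact hff)
      (by show L.q e e = 0; exact hee)
    rw [hr, hrk'] at hcore
    exact hcore
  · by_cases hodd : ∃ n₁ n₂ : perp L T i, ¬ (2 : ℤ) ∣ L.q n₁ n₂
    · left
      obtain ⟨n₁, n₂, h12⟩ := hodd
      have hcore := genP_core L T i hU hi 2 (L.q n₁ n₂) (by exact_mod_cast h12)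
        (LinearMap.ker (LinearMap.applyₗ n₂ : (perp L T i →ₗ[ℤ] ℤ) →ₗ[ℤ] ℤ)) (fun l => ⟨l n₂ • n₁, by
          rw [LinearMap.mem_ker]
          show L.q n₁ n₂ • l n₂ - L.q ((l n₂ • n₁ : perp L T i) : L.V) n₂ = 0
          rw [Submodule.coe_smul, map_smul, LinearMap.smul_apply]
          simp only [smul_eq_mul]
          ring⟩)
      have hr := finrank_ker_one (perp L T i →ₗ[ℤ] ℤ)
        (LinearMap.applyₗ n₂ : (perp L T i →ₗ[ℤ] ℤ) →ₗ[ℤ] ℤ)
        ((L.q n₁) ∘ₗ (perp L T i).subtype)
        (by
          show L.q n₁ n₂ ≠ 0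
          intro h
          rw [h] at h12
          exact h12 (dvd_zero _))
      rw [hr, hrk'] at hcore
      exact hcore
    · right
      push Not at hodd
      have hhalf : ∀ n : perp L T i, ∃ m : L.V, ∀ n' : perp L T i, 2 * L.q m n' = L.q n n' := by
        intro n
        have h1 : ∀ n' : perp L T i, ∃ c : ℤ, L.q n n' = 2 * c := fun n' => hodd n n'
        let l : perp L T i →ₗ[ℤ] ℤ :=
          { toFun := fun n' => L.q n n' / 2
            map_add' := by
              intro a b
              obtain ⟨ca, hca⟩ := h1 a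
              obtain ⟨cb, hcb⟩ := h1 b
              rw [Submodule.coe_add, map_add, hca, hcb]
              omega
            map_smul' := by
              intro r a
              obtain ⟨ca, hca⟩ := h1 a
              rw [Submodule.coe_smul, map_smul, hca, smul_eq_mul, RingHom.id_apply, smul_eq_mul,
                Int.mul_ediv_cancel_left _ two_ne_zero, mul_left_comm,
                Int.mul_ediv_cancel_left _ two_ne_zero] }
        obtain ⟨m, hm⟩ := rep_N L T i hU l
        refine ⟨m, fun n' => ?_⟩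
        rw [hm]
        obtain ⟨c, hc⟩ := h1 n'
        show 2 * (L.q n n' / 2) = L.q n n'
        rw [hc, Int.mul_ediv_cancel_left _ two_ne_zero]
      obtain ⟨m, hm⟩ := hhalf e'
      obtain ⟨m', hm'⟩ := hhalf f'
      have hme : L.q m e = 0 := by
        have := hm e'
        change 2 * L.q m e = L.q e e at this
        rw [hee] at this
        omega
      have hmf : L.q m f = 1 := by
        have := hm f'
        change 2 * L.q m f = L.q e f at this
        rw [hef] at this
        omega
      have hme' : L.q m' e = 1 := by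
        have := hm' e'
        change 2 * L.q m' e = L.q f e at this
        rw [hfe] at this
        omega
      have hmf' : L.q m' f = 0 := by
        have := hm' f'
        change 2 * L.q m' f = L.q f f at this
        rw [hff] at this
        omega
      have hx : (2 : ℤ) • m - e ∈ LinearMap.range i := by
        apply perp_perp L T i hU hi
        intro n
        rw [map_sub, map_smul, LinearMap.sub_apply, LinearMap.smul_apply, smul_eq_mul, hm n]
        exact sub_self _
      have hy : (2 : ℤ) • m' - f ∈ LinearMap.range i := by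
        apply perp_perp L T i hU hi
        intro n
        rw [map_sub, map_smul, LinearMap.sub_apply, LinearMap.smul_apply, smul_eq_mul, hm' n]
        exact sub_self _
      obtain ⟨x, hx⟩ := hx
      obtain ⟨y, hy⟩ := hy
      obtain ⟨c, hc⟩ := hE m
      obtain ⟨c', hc'⟩ := hE m'
      refine ⟨x, y, ?_, ?_, ?_, ?_, ?_⟩
      · intro t
        rw [← hi.isom, hx, map_sub, map_smul, LinearMap.sub_apply, LinearMap.smul_apply,
          smul_eq_mul, he t, sub_zero]
        exact dvd_mul_right _ _
      · intro t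
        rw [← hi.isom, hy, map_sub, map_smul, LinearMap.sub_apply, LinearMap.smul_apply,
          smul_eq_mul, hf t, sub_zero]
        exact dvd_mul_right _ _
      · rw [← hi.isom, hx]
        simp only [map_sub, map_smul, LinearMap.sub_apply, LinearMap.smul_apply, smul_eq_mul]
        rw [L.symm e m, hme, hee, hc]
        exact ⟨c, by ring⟩
      · rw [← hi.isom, hy]
        simp only [map_sub, map_smul, LinearMap.sub_apply, LinearMap.smul_apply, smul_eq_mul]
        rw [L.symm f m', hmf', hff, hc']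
        exact ⟨c', by ring⟩
      · rw [← hi.isom, hx, hy]
        simp only [map_sub, map_smul, LinearMap.sub_apply, LinearMap.smul_apply, smul_eq_mul]
        rw [L.symm e m', hme', hmf, hef]
        exact ⟨L.q m m' - 1, by ring⟩

end

end H91.VF.Nik
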