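import Pool.Agent.H91.VF.Defs
import Pool.Agent.H38.VF.Ori
import Pool.Agent.H38.VF.Nik

/-!
# A Hodge isometry `T_X ≅ T_Y` gives `Ku(X) ≅ Ku(Y)`

For every pair of smooth Verra fourfolds: Nikulin's theorem extends the isometry
`T(S, α) ≅ T(S', α')` to the Mukai lattices, the reflection in a vector of square two of
`N(S, α)` corrects the orientation, and the theorem of Huybrechts and Stellari applies.
-/

namespace H91.VF.Asm

open scoped TensorProduct
open H91.VF.Nik H91.VF.Ori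

/-! ## Base change -/

section

variable (A : Type) [CommRing A] {V W : Type} [AddCommGroup V] [AddCommGroup W]

theorem bc_isom (q : LinearMap.BilinForm ℤ V) (q' : LinearMap.BilinForm ℤ W) (g : V →ₗ[ℤ] W)
    (c : ℤ) (h : ∀ x y, q' (g x) (g y) = c * q x y) (x y : A ⊗[ℤ] V) :
    q'.baseChange A (g.baseChange A x) (g.baseChange A y) = c • q.baseChange A x y := by
  induction x using TensorProduct.induction_on with
  | zero => simp
  | add x₁ x₂ h₁ h₂ =>
    rw [map_add, map_add, LinearMap.add_apply, h₁, h₂, map_add, LinearMap.add_apply, smul_add]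
  | tmul a v =>
    induction y using TensorProduct.induction_on with
    | zero => simp
    | add y₁ y₂ h₁ h₂ =>
      rw [map_add, map_add, h₁, h₂, map_add, smul_add]
    | tmul b w =>
      rw [LinearMap.baseChange_tmul, LinearMap.baseChange_tmul,
        LinearMap.BilinForm.baseChange_tmul, LinearMap.BilinForm.baseChange_tmul, h, mul_smul]

theorem bc_symm (q : LinearMap.BilinForm ℤ V) (h : ∀ x y, q x y = q y x) (x y : A ⊗[ℤ] V) :
    q.baseChange A x y = q.baseChange A y x := by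
  induction x using TensorProduct.induction_on with
  | zero => simp
  | add x₁ x₂ h₁ h₂ =>
    rw [map_add, map_add, LinearMap.add_apply, h₁, h₂]
  | tmul a v =>
    induction y using TensorProduct.induction_on with
    | zero => simp
    | add y₁ y₂ h₁ h₂ =>
      rw [map_add, map_add, h₁, h₂, LinearMap.add_apply]
    | tmul b w =>
      rw [LinearMap.BilinForm.baseChange_tmul, LinearMap.BilinForm.baseChange_tmul, h v w,
        mul_comm a b]

/-- The reflection in a vector `v` of square two. -/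
noncomputable def refl (q : LinearMap.BilinForm ℤ V) (v : V) : V →ₗ[ℤ] V :=
  LinearMap.id - (q.flip v).smulRight v

theorem refl_apply (q : LinearMap.BilinForm ℤ V) (v x : V) :
    refl q v x = x - q x v • v := rfl

theorem refl_bc (q : LinearMap.BilinForm ℤ V) (v : V) (x : A ⊗[ℤ] V) :
    (refl q v).baseChange A x
      = x - q.baseChange A x ((1 : A) ⊗ₜ[ℤ] v) • ((1 : A) ⊗ₜ[ℤ] v) := by
  induction x using TensorProduct.induction_on with
  | zero => simp
  | add x₁ x₂ h₁ h₂ =>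
    rw [map_add, h₁, h₂, map_add, LinearMap.add_apply, add_smul]
    abel
  | tmul a x =>
    rw [LinearMap.baseChange_tmul, refl_apply, TensorProduct.tmul_sub,
      LinearMap.BilinForm.baseChange_tmul, mul_one, TensorProduct.tmul_smul]
    congr 1
    rw [TensorProduct.smul_tmul', TensorProduct.smul_tmul', smul_eq_mul, mul_one]

theorem refl_invol (q : LinearMap.BilinForm ℤ V) (v : V) (hv : q v v = 2) (x : V) :
    refl q v (refl q v x) = x := by
  rw [refl_apply, refl_apply, map_sub, LinearMap.sub_apply, map_smul, LinearMap.smul_apply, hv,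
    smul_eq_mul]
  have : q x v - q x v * 2 = - q x v := by ring
  rw [this, neg_smul]
  abel

/-- The reflection as an automorphism. -/
noncomputable def reflE (q : LinearMap.BilinForm ℤ V) (v : V) (hv : q v v = 2) : V ≃ₗ[ℤ] V :=
  LinearEquiv.ofInvolutive (refl q v) (refl_invol q v hv)

theorem refl_isom (q : LinearMap.BilinForm ℤ V) (hs : ∀ x y, q x y = q y x) (v : V)
    (hv : q v v = 2) (x y : V) : q (refl q v x) (refl q v y) = q x y := by
  rw [refl_apply, refl_apply]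
  simp only [map_sub, map_smul, LinearMap.sub_apply, LinearMap.smul_apply, smul_eq_mul]
  rw [hv, hs v y]
  ring

end

/-! ## The transcendental lattice as a lattice -/

theorem hdg_sat (X : Coh) (x : X.V) (n : ℤ) (hn : n ≠ 0) (h : n • x ∈ X.hdg) : x ∈ X.hdg := by
  have h1 : (1 : ℂ) ⊗ₜ[ℤ] (n • x) ∈ X.hodge.H 2 := h
  show (1 : ℂ) ⊗ₜ[ℤ] x ∈ X.hodge.H 2
  have h2 : (1 : ℂ) ⊗ₜ[ℤ] x = ((n : ℂ)⁻¹) • ((1 : ℂ) ⊗ₜ[ℤ] (n • x)) := by
    rw [TensorProduct.tmul_smul, ← Int.cast_smul_eq_zsmul ℂ n, smul_smul,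
      inv_mul_cancel₀ (Int.cast_ne_zero.mpr hn), one_smul]
  rw [h2]
  exact Submodule.smul_mem _ _ h1

/-- `Hdg_X` as a lattice. -/
noncomputable def hdgLat (X : Coh) : Lat where
  V := X.hdg
  free := Module.Free.of_basis (Module.finBasis ℤ X.hdg)
  q := (X.q.comp X.hdg.subtype X.hdg.subtype)
  symm := fun x y => X.symm x y

theorem hdgLat_prim (X : Coh) : PrimEmb (hdgLat X) X.toLat X.hdg.subtype where
  inj := Subtype.val_injective
  isom := fun _ _ => rfl
  sat := by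
    rintro v n hn ⟨w, hw⟩
    have h : n • v ∈ X.hdg := hw ▸ w.2
    exact ⟨⟨v, hdg_sat X v n hn h⟩, rfl⟩

theorem mem_hdg_of_orth (X : Coh) (x : X.V) (h : ∀ t ∈ X.tr, X.q x t = 0) : x ∈ X.hdg := by
  obtain ⟨w, hw⟩ := perp_perp X.toLat (hdgLat X) X.hdg.subtype X.unimod (hdgLat_prim X) x
    (fun n => h n.1 (fun v hv => by rw [X.symm]; exact n.2 ⟨v, hv⟩))
  rw [← hw]
  exact w.2

theorem a_mem (X : Coh) (i : Fin 3) : X.a i ∈ X.hdg := X.a_hodge i

theorem conj_one_tmul (V : Type) [AddCommGroup V] (v : V) :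
    conj V ((1 : ℂ) ⊗ₜ[ℤ] v) = (1 : ℂ) ⊗ₜ[ℤ] v := by
  show TensorProduct.map _ _ _ = _
  rw [TensorProduct.map_tmul]
  congr 1
  exact map_one (starRingEnd ℂ)

theorem tmul_one_ne (V : Type) [AddCommGroup V] [Module.Free ℤ V] (v : V) (hv : v ≠ 0) :
    (1 : ℂ) ⊗ₜ[ℤ] v ≠ 0 := by
  intro h
  apply hv
  have h1 : Function.Injective (LinearMap.rTensor V (Algebra.linearMap ℤ ℂ)) :=
    Module.Flat.rTensor_preserves_injective_linearMap _ (by
      intro a b h
      have h' : ((a : ℤ) : ℂ) = ((b : ℤ) : ℂ) := h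
      exact Int.cast_injective h')
  have h2 : LinearMap.rTensor V (Algebra.linearMap ℤ ℂ) ((1 : ℤ) ⊗ₜ[ℤ] v) = 0 := by
    rw [LinearMap.rTensor_tmul]
    simpa using h
  have h3 : (1 : ℤ) ⊗ₜ[ℤ] v = 0 := h1 (by rw [h2, map_zero])
  have h4 := congrArg (TensorProduct.lid ℤ V) h3
  simpa using h4

/-- `T_X ∩ Hdg_X = 0`. -/
theorem tr_inf_hdg (X : Coh) (x : X.V) (h1 : x ∈ X.tr) (h2 : x ∈ X.hdg) : x = 0 := by
  by_contra hx
  have h3 : X.q x x = 0 := h1 x h2
  obtain ⟨r, hr, hr2⟩ := X.pos ((1 : ℂ) ⊗ₜ[ℤ] x) h2 (fun i => by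
    rw [LinearMap.BilinForm.baseChange_tmul, h1 _ (a_mem X i), zero_smul]) (tmul_one_ne X.V x hx)
  rw [conj_one_tmul, LinearMap.BilinForm.baseChange_tmul, h3, zero_smul] at hr2
  have h4 : r = 0 := by exact_mod_cast hr2.symm
  exact hr.ne' h4

/-- The lattice `T_X(-1)`. -/
noncomputable def trLat (X : Coh) : Lat where
  V := X.tr
  free := Module.Free.of_basis (Module.finBasis ℤ X.tr)
  q := -(X.q.comp X.tr.subtype X.tr.subtype)
  symm := fun x y => by
    show -(X.q x y) = -(X.q y x)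
    rw [X.symm]

theorem trLat_q (X : Coh) (s t : X.tr) : (trLat X).q s t = -(X.q s t) := rfl

theorem trLat_nondeg (X : Coh) : (trLat X).Nondeg := by
  intro x hx
  apply Subtype.ext
  apply tr_inf_hdg X x.1 x.2
  apply mem_hdg_of_orth
  intro t ht
  have h1 : -(X.q x.1 t) = 0 := hx ⟨t, ht⟩
  exact neg_eq_zero.mp h1

theorem trLat_rk (X : Coh) : (trLat X).rk = Module.finrank ℤ X.tr := rfl

/-! ## The assembly -/

section

variable (D : VerraData) (X Y : D.Verra)

theorem prim_j (M : Mukai) (X : Coh) (j : X.tr →ₗ[ℤ] M.V)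
    (h1 : ∀ s t : X.tr, M.q (j s) (j t) = - X.q s t)
    (h2 : ∀ m, m ∈ LinearMap.range j ↔ ∀ n ∈ M.N, M.q n m = 0) :
    PrimEmb (trLat X) M.toLat j where
  inj := by
    intro (a : X.tr) (b : X.tr) hab
    have hab' : j a = j b := hab
    have h0 : (a - b : X.tr) = 0 := by
      apply trLat_nondeg X
      intro (t : X.tr)
      have h3 : M.q (j (a - b : X.tr)) (j t) = -(X.q (a - b : X.tr) t) := h1 _ t
      rw [map_sub, hab', sub_self, map_zero, LinearMap.zero_apply] at h3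
      exact h3.symm
    exact sub_eq_zero.mp h0
  isom := fun s t => h1 s t
  sat := by
    intro v n hn h
    have h' : v ∈ LinearMap.range j := by
      rw [h2]
      intro m hm
      have h3 := (h2 (n • v)).mp h m hm
      rw [map_smul, smul_eq_mul] at h3
      exact (mul_eq_zero.mp h3).resolve_left hn
    exact h'

/-- The isometry of transcendental lattices extends to an isometry of Mukai lattices. -/
theorem extend (M M' : Mukai) (hM : ∃ g : M.V ≃ₗ[ℤ] M'.V, ∀ x y, M'.q (g x) (g y) = M.q x y)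
    (hN : Nikulin1144) (X Y : Coh) (j : X.tr →ₗ[ℤ] M.V) (j' : Y.tr →ₗ[ℤ] M'.V)
    (h1 : ∀ s t : X.tr, M.q (j s) (j t) = - X.q s t)
    (h2 : ∀ m, m ∈ LinearMap.range j ↔ ∀ n ∈ M.N, M.q n m = 0)
    (h1' : ∀ s t : Y.tr, M'.q (j' s) (j' t) = - Y.q s t)
    (h2' : ∀ m, m ∈ LinearMap.range j' ↔ ∀ n ∈ M'.N, M'.q n m = 0)
    (e f : M.V) (he : e ∈ M.N) (hf : f ∈ M.N) (hee : M.q e e = 0) (hff : M.q f f = 0)
    (hef : M.q e f = 2)
    (g : X.tr ≃ₗ[ℤ] Y.tr) (hg : ∀ s t : X.tr, Y.q (g s) (g t) = X.q s t) :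
    ∃ G : M.V ≃ₗ[ℤ] M'.V, (∀ x y, M'.q (G x) (G y) = M.q x y) ∧ ∀ t, G (j t) = j' (g t) := by
  obtain ⟨φ, hφ⟩ := hM
  have hφ' : ∀ x y, M.q (φ.symm x) (φ.symm y) = M'.q x y := by
    intro x y
    rw [← hφ, LinearEquiv.apply_symm_apply, LinearEquiv.apply_symm_apply]
  have hp := prim_j M X j h1 h2
  have hp' := prim_j M' Y j' h1' h2'
  let k : X.tr →ₗ[ℤ] M.V := φ.symm.toLinearMap ∘ₗ j' ∘ₗ g.toLinearMap
  have hk : PrimEmb (trLat X) M.toLat k :=
    { inj := by
        intro a b hab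
        exact g.injective (hp'.inj (φ.symm.injective hab))
      isom := by
        intro (s : X.tr) (t : X.tr)
        have h3 : M.q (φ.symm (j' (g s))) (φ.symm (j' (g t))) = -(X.q s t) := by
          rw [hφ', h1', hg]
        exact h3
      sat := by
        rintro v n hn ⟨w, hw⟩
        have h3 : φ v ∈ LinearMap.range j' := by
          apply hp'.sat (φ v) n hn
          refine ⟨g w, ?_⟩
          rw [← map_smul, ← hw]
          show j' (g w) = φ (φ.symm (j' (g w)))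
          rw [LinearEquiv.apply_symm_apply]
        obtain ⟨u, hu⟩ := h3
        refine ⟨g.symm u, ?_⟩
        show φ.symm (j' (g (g.symm u))) = v
        rw [LinearEquiv.apply_symm_apply, hu, LinearEquiv.symm_apply_apply] }
  have hTe : (trLat X).Even := by
    intro x
    rw [← hp.isom]
    exact M.even _
  have he' : ∀ t : X.tr, M.q e (j t) = 0 := fun t => (h2 (j t)).mp ⟨t, rfl⟩ e he
  have hf' : ∀ t : X.tr, M.q f (j t) = 0 := fun t => (h2 (j t)).mp ⟨t, rfl⟩ f hf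
  have hpl : ∀ t : X.tr, M.q (e + f) (j t) = 0 := fun t => by
    rw [map_add, LinearMap.add_apply, he', hf', add_zero]
  have hmi : ∀ t : X.tr, M.q (e - f) (j t) = 0 := fun t => by
    rw [map_sub, LinearMap.sub_apply, he', hf', sub_zero]
  obtain ⟨n1, n2⟩ := nik M.toLat (trLat X) j M.even M.unimod hp e f he' hf' hee hff hef
  have hfe : M.q f e = 2 := by rw [M.symm, hef]
  obtain ⟨G, hG1, hG2⟩ := hN M.toLat (trLat X) M.even M.unimod hTe (trLat_nondeg X) j k hp hk
    ⟨e + f, e - f, hpl, hmi,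
      by
        simp only [map_add, LinearMap.add_apply]
        rw [hee, hff, hef, hfe]
        norm_num,
      by
        simp only [map_sub, LinearMap.sub_apply]
        rw [hee, hff, hef, hfe]
        norm_num⟩ n1 n2
  refine ⟨G.trans φ, fun x y => ?_, fun t => ?_⟩
  · rw [LinearEquiv.trans_apply, LinearEquiv.trans_apply, hφ, hG1]
  · have h3 : G (j t) = φ.symm (j' (g t)) := hG2 t
    rw [LinearEquiv.trans_apply, h3, LinearEquiv.apply_symm_apply]

/-- **Orientation.**  If an isometry of Mukai lattices does not preserve the orientations, its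
composition with the reflection in a vector of square two does. -/
theorem orient (M M' : Mukai) (G : M.V ≃ₗ[ℤ] M'.V) (hG : ∀ x y, M'.q (G x) (G y) = M.q x y)
    (v : M.V) (hv : M.q v v = 2) :
    OrientPres M M' G ∨ OrientPres M M' ((reflE M.q v hv).trans G) := by
  by_cases h : OrientPres M M' G
  · exact Or.inl h
  right
  have hGR : ∀ x y : ℝ ⊗[ℤ] M.V, M'.q.baseChange ℝ (G.toLinearMap.baseChange ℝ x)
      (G.toLinearMap.baseChange ℝ y) = M.q.baseChange ℝ x y := by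
    intro x y
    have := bc_isom ℝ M.q M'.q G.toLinearMap 1 (fun x y => by rw [one_mul]; exact hG x y) x y
    rwa [one_smul] at this
  have hsurj : ∀ y : ℝ ⊗[ℤ] M'.V, ∃ x, G.toLinearMap.baseChange ℝ x = y := by
    intro y
    refine ⟨G.symm.toLinearMap.baseChange ℝ y, ?_⟩
    rw [← LinearMap.comp_apply, ← LinearMap.baseChange_comp]
    have : G.toLinearMap ∘ₗ G.symm.toLinearMap = LinearMap.id := by
      ext z
      simp
    rw [this, LinearMap.baseChange_id, LinearMap.id_apply]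
  have hneg : ∀ x : ℝ ⊗[ℤ] M'.V,
      (∀ i, M'.q.baseChange ℝ (G.toLinearMap.baseChange ℝ (M.frame i)) x = 0) → x ≠ 0 →
      M'.q.baseChange ℝ x x < 0 := by
    intro y hy hy0
    obtain ⟨x, rfl⟩ := hsurj y
    rw [hGR]
    apply M.frame_neg
    · intro i
      rw [← hGR]
      exact hy i
    · intro hx
      apply hy0
      rw [hx, map_zero]
  have hv' : M'.q.baseChange ℝ ((1 : ℝ) ⊗ₜ[ℤ] G v) ((1 : ℝ) ⊗ₜ[ℤ] G v) = 2 := by
    rw [LinearMap.BilinForm.baseChange_tmul, hG, hv]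
    norm_num
  have hmain := refl_det_neg (M'.q.baseChange ℝ) (bc_symm ℝ M'.q M'.symm)
    (fun i => G.toLinearMap.baseChange ℝ (M.frame i)) M'.frame hneg M'.frame_pos
    ((1 : ℝ) ⊗ₜ[ℤ] G v) hv'
  have hdet : (gram (M'.q.baseChange ℝ) (fun i => G.toLinearMap.baseChange ℝ (M.frame i))
      M'.frame).det ≤ 0 := not_lt.mp h
  have hdet2 : 0 < (gram (M'.q.baseChange ℝ) (fun i => G.toLinearMap.baseChange ℝ (M.frame i)
      - M'.q.baseChange ℝ (G.toLinearMap.baseChange ℝ (M.frame i)) ((1 : ℝ) ⊗ₜ[ℤ] G v) •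
        ((1 : ℝ) ⊗ₜ[ℤ] G v)) M'.frame).det := by
    by_contra hc
    exact absurd hmain (not_lt.mpr (mul_nonneg_of_nonpos_of_nonpos (not_lt.mp hc) hdet))
  have heq : ∀ i, ((reflE M.q v hv).trans G).toLinearMap.baseChange ℝ (M.frame i)
      = G.toLinearMap.baseChange ℝ (M.frame i)
      - M'.q.baseChange ℝ (G.toLinearMap.baseChange ℝ (M.frame i)) ((1 : ℝ) ⊗ₜ[ℤ] G v) •
        ((1 : ℝ) ⊗ₜ[ℤ] G v) := by
    intro i
    have h1 : ((reflE M.q v hv).trans G).toLinearMap = G.toLinearMap ∘ₗ refl M.q v := rfl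
    have h2 : (1 : ℝ) ⊗ₜ[ℤ] G v = G.toLinearMap.baseChange ℝ ((1 : ℝ) ⊗ₜ[ℤ] v) := by
      rw [LinearMap.baseChange_tmul]
      rfl
    rw [h1, LinearMap.baseChange_comp, LinearMap.comp_apply, refl_bc, map_sub, map_smul, h2, hGR]
  show 0 < Matrix.det (Matrix.of fun i j : Fin 4 =>
    M'.q.baseChange ℝ (((reflE M.q v hv).trans G).toLinearMap.baseChange ℝ (M.frame i))
      (M'.frame j))
  simp only [heq]
  exact hdet2

/-- A Hodge isometry `T_X ≅ T_Y` extends to an orientation preserving Hodge isometry of the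
Mukai lattices. -/
theorem core (M M' : Mukai) (hM : ∃ g : M.V ≃ₗ[ℤ] M'.V, ∀ x y, M'.q (g x) (g y) = M.q x y)
    (hN : Nikulin1144) (X Y : Coh) (hin : ∀ x ∈ X.hodge.H 3, ∃ y, X.incl y = x)
    (j : X.tr →ₗ[ℤ] M.V) (j' : Y.tr →ₗ[ℤ] M'.V)
    (j1 : ∀ s t : X.tr, M.q (j s) (j t) = - X.q s t)
    (j2 : ∀ m, m ∈ LinearMap.range j ↔ ∀ n ∈ M.N, M.q n m = 0)
    (j3 : ∀ x, X.incl x ∈ X.hodge.H 3 → ∃ c : ℂ, j.baseChange ℂ x = c • M.σ)
    (j1' : ∀ s t : Y.tr, M'.q (j' s) (j' t) = - Y.q s t)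
    (j2' : ∀ m, m ∈ LinearMap.range j' ↔ ∀ n ∈ M'.N, M'.q n m = 0)
    (j3' : ∀ x, Y.incl x ∈ Y.hodge.H 3 → ∃ c : ℂ, j'.baseChange ℂ x = c • M'.σ)
    (e f v : M.V) (he : e ∈ M.N) (hf : f ∈ M.N) (hv : v ∈ M.N) (hee : M.q e e = 0)
    (hff : M.q f f = 0) (hef : M.q e f = 2) (hvv : M.q v v = 2)
    (g : X.tr ≃ₗ[ℤ] Y.tr) (hg : HodgeIsometry X Y g) :
    ∃ G : M.V ≃ₗ[ℤ] M'.V, MukaiIsometry M M' G ∧ OrientPres M M' G := by
  obtain ⟨hg1, hg2⟩ := hg
  obtain ⟨G, hG1, hG2⟩ := extend M M' hM hN X Y j j' j1 j2 j1' j2' e f he hf hee hff hef g hg2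
  -- the period
  obtain ⟨ω, hω⟩ := finrank_eq_one_iff'.mp X.one
  obtain ⟨hω0, -⟩ := hω
  obtain ⟨y, hy⟩ := hin ω.1 ω.2
  obtain ⟨c, hc⟩ := j3 y (by rw [hy]; exact ω.2)
  have hj : Function.Injective j := (prim_j M X j j1 j2).inj
  have hc0 : c ≠ 0 := by
    intro h0
    rw [h0, zero_smul] at hc
    have hinj : Function.Injective (j.baseChange ℂ) :=
      Module.Flat.lTensor_preserves_injective_linearMap j hj
    have hy0 : y = 0 := hinj (by rw [hc, map_zero])
    apply hω0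
    apply Subtype.ext
    rw [← hy, hy0, map_zero]
    rfl
  obtain ⟨c', hc'⟩ := j3' (g.toLinearMap.baseChange ℂ y)
    (hg1 3 y (by rw [hy]; exact ω.2))
  have hσ : M.σ = c⁻¹ • j.baseChange ℂ y := by
    rw [hc, smul_smul, inv_mul_cancel₀ hc0, one_smul]
  have hcomp : G.toLinearMap ∘ₗ j = j' ∘ₗ g.toLinearMap := LinearMap.ext fun t => hG2 t
  have hGσ : G.toLinearMap.baseChange ℂ M.σ = (c⁻¹ * c') • M'.σ := by
    rw [hσ, map_smul, ← LinearMap.comp_apply, ← LinearMap.baseChange_comp, hcomp,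
      LinearMap.baseChange_comp, LinearMap.comp_apply, hc', smul_smul]
  have hiso : MukaiIsometry M M' G := ⟨hG1, _, hGσ⟩
  have hiso' : MukaiIsometry M M' ((reflE M.q v hvv).trans G) := by
    refine ⟨fun x y => ?_, c⁻¹ * c', ?_⟩
    · rw [LinearEquiv.trans_apply, LinearEquiv.trans_apply, hG1]
      exact refl_isom M.q M.symm v hvv x y
    · have h1 : ((reflE M.q v hvv).trans G).toLinearMap = G.toLinearMap ∘ₗ refl M.q v := rfl
      have h2 : M.q.baseChange ℂ M.σ ((1 : ℂ) ⊗ₜ[ℤ] v) = 0 := by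
        rw [bc_symm ℂ M.q M.symm]
        exact hv
      rw [h1, LinearMap.baseChange_comp, LinearMap.comp_apply, refl_bc, h2, zero_smul, sub_zero,
        hGσ]
  rcases orient M M' G hG1 v hvv with h1 | h1
  · exact ⟨G, hiso, h1⟩
  · exact ⟨_, hiso', h1⟩

/-- **A Hodge isometry `T_X ≅ T_Y` gives an equivalence `Ku(X) ≅ Ku(Y)`.** -/
theorem main (D : VerraData) (X Y : D.Verra)
    (hin : ∀ x ∈ (D.coh X).hodge.H 3, ∃ y, (D.coh X).incl y = x)
    (h : ∃ g : (D.coh X).tr ≃ₗ[ℤ] (D.coh Y).tr, HodgeIsometry (D.coh X) (D.coh Y) g) :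
    D.Equiv (D.Ku X) (D.Ku Y) := by
  obtain ⟨g, hg⟩ := h
  obtain ⟨j, j1, j2, j3⟩ := D.tr_mukai X
  obtain ⟨j', j1', j2', j3'⟩ := D.tr_mukai Y
  obtain ⟨e, he, f, hf, v, hv, hee, hff, hef, hvv, -, -⟩ := D.alg_mukai X
  obtain ⟨G, h1, h2⟩ := core _ _ (D.mukai_iso (D.assoc X) (D.assoc Y)) D.nikulin (D.coh X)
    (D.coh Y) hin j j' j1 j2 j3 j1' j2' j3' e f v he hf hv hee hff hef hvv g hg
  exact D.equiv_trans (D.ku_db X) (D.equiv_trans (D.huybrechts_stellari _ _ G h1 h2)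
    (D.equiv_symm (D.ku_db Y)))

end

end H91.VF.Asm
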