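import Pool.Agent.H91.VF.Cat

/-!
# Cancellation when the endomorphism ring is a Dedekind domain

If `A ⊕ U ≅ B ⊕ U`, the Hom groups are finitely generated and torsion free, and `End A` is a
Dedekind domain, then `A ≅ B` (no condition on the class number).  The key lemma holds over every
commutative ring: an ideal `I` with `I × Rⁿ ≅ R × Rⁿ` is principal.
-/

namespace H91.VF

open CategoryTheory

section ring

variable {R : Type*} [CommRing R] {n : ℕ}

/-- Coordinates. -/
def vecOf (a : R) (v : Fin n → R) : Option (Fin n) → R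
  | none => a
  | some k => v k

theorem prod_decomp (x : R × (Fin n → R)) :
    x = x.1 • ((1, 0) : R × (Fin n → R)) +
      ∑ k, x.2 k • ((0, Pi.single k 1) : R × (Fin n → R)) := by
  apply Prod.ext
  · rw [Prod.fst_add, Prod.smul_fst, Prod.fst_sum]
    simp
  · rw [Prod.snd_add, Prod.smul_snd, Prod.snd_sum]
    ext j
    simp [Finset.sum_apply, Pi.single_apply]

/-- **An ideal `I` with `I × Rⁿ ≅ R × Rⁿ` is principal.** -/
theorem principal_of_equiv (I : Ideal R)
    (e : (R × (Fin n → R)) ≃ₗ[R] (I × (Fin n → R))) : ∃ d ∈ I, ∀ x ∈ I, ∃ y, x = d * y := by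
  classical
  let col : Option (Fin n) → R × (Fin n → R)
    | none => (1, 0)
    | some k => (0, Pi.single k 1)
  let G : Matrix (Option (Fin n)) (Option (Fin n)) R :=
    Matrix.of fun i j => vecOf ((e (col j)).1 : R) (e (col j)).2 i
  have hG : ∀ x : R × (Fin n → R), G.mulVec (vecOf x.1 x.2)
      = vecOf ((e x).1 : R) (e x).2 := by
    intro x
    have hx : e x = x.1 • e (col none) + ∑ k, x.2 k • e (col (some k)) := by
      conv_lhs => rw [prod_decomp x]
      rw [map_add, map_smul, map_sum]
      simp only [map_smul]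
      rfl
    ext i
    have h1 : G.mulVec (vecOf x.1 x.2) i
        = G i none * x.1 + ∑ k, G i (some k) * x.2 k := by
      rw [Matrix.mulVec, dotProduct, Fintype.sum_option]
      rfl
    rw [h1, hx]
    cases i with
    | none =>
      show _ = (((x.1 • e (col none) + ∑ k, x.2 k • e (col (some k))).1 : I) : R)
      rw [Prod.fst_add, Prod.smul_fst, Prod.fst_sum, Submodule.coe_add, Submodule.coe_smul,
        Submodule.coe_sum, smul_eq_mul, mul_comm]
      congr 1
      refine Finset.sum_congr rfl fun k _ => ?_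
      rw [Prod.smul_fst, Submodule.coe_smul, smul_eq_mul, mul_comm]
      rfl
    | some l =>
      show _ = (x.1 • e (col none) + ∑ k, x.2 k • e (col (some k))).2 l
      rw [Prod.snd_add, Prod.smul_snd, Prod.snd_sum, Pi.add_apply, Pi.smul_apply,
        Finset.sum_apply, smul_eq_mul, mul_comm]
      congr 1
      refine Finset.sum_congr rfl fun k _ => ?_
      rw [Prod.smul_snd, Pi.smul_apply, smul_eq_mul, mul_comm]
      rfl
  refine ⟨G.det, ?_, ?_⟩
  · rw [Matrix.det_apply]
    refine I.sum_mem fun σ _ => ?_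
    have h2 : ∏ i, G (σ i) i ∈ I := by
      have h3 : G none (σ.symm none) ∈ I := ((e (col (σ.symm none))).1).2
      have h4 : G (σ (σ.symm none)) (σ.symm none) ∣ ∏ i, G (σ i) i :=
        Finset.dvd_prod_of_mem (fun i => G (σ i) i) (Finset.mem_univ _)
      rw [Equiv.apply_symm_apply] at h4
      exact I.mem_of_dvd h4 h3
    rw [Units.smul_def, zsmul_eq_mul]
    exact I.mul_mem_left _ h2
  · intro x hx
    let w : Option (Fin n) → I × (Fin n → R)
      | none => (⟨x, hx⟩, 0)
      | some k => (0, Pi.single k 1)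
    let V : Matrix (Option (Fin n)) (Option (Fin n)) R :=
      Matrix.of fun i j => vecOf (e.symm (w j)).1 (e.symm (w j)).2 i
    have hGV : G * V = Matrix.diagonal (vecOf x (fun _ => 1)) := by
      ext i j
      have h5 : (G * V) i j = G.mulVec (vecOf (e.symm (w j)).1 (e.symm (w j)).2) i := rfl
      rw [h5, hG, LinearEquiv.apply_symm_apply]
      cases j with
      | none =>
        cases i with
        | none => simp [w, vecOf]
        | some k => simp [w, vecOf]
      | some l =>
        cases i with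
        | none => simp [w, vecOf]
        | some k =>
          by_cases hkl : k = l
          · subst hkl
            simp [w, vecOf]
          · have : (some k : Option (Fin n)) ≠ some l := fun h => hkl (Option.some.inj h)
            rw [Matrix.diagonal_apply_ne _ this]
            simp [w, vecOf, hkl]
    refine ⟨V.det, ?_⟩
    rw [← Matrix.det_mul, hGV, Matrix.det_diagonal, Fintype.prod_option]
    simp [vecOf]

/-- A finitely generated projective module is a direct summand of `Rⁿ`. -/
theorem exists_compl (M : Type*) [AddCommGroup M] [Module R M] [Module.Finite R M]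
    [Module.Projective R M] : ∃ (n : ℕ) (N : Submodule R (Fin n → R)),
      Nonempty ((M × N) ≃ₗ[R] (Fin n → R)) := by
  obtain ⟨n, f, hf⟩ := Module.Finite.exists_fin' R M
  obtain ⟨s, hs⟩ := Module.projective_lifting_property f LinearMap.id hf
  have hs' : ∀ m, f (s m) = m := fun m => LinearMap.congr_fun hs m
  refine ⟨n, LinearMap.ker f, ⟨LinearEquiv.ofLinearMap
    (s.coprod (LinearMap.ker f).subtype)
    (LinearMap.prod f (LinearMap.codRestrict (LinearMap.ker f) (LinearMap.id - s ∘ₗ f) ?_))
    ?_ ?_⟩⟩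
  · intro v
    rw [LinearMap.mem_ker, LinearMap.sub_apply, map_sub, LinearMap.comp_apply, hs',
      LinearMap.id_apply, sub_self]
  · ext v : 1
    apply LinearMap.ext
    intro c
    simp
  · apply LinearMap.ext
    rintro ⟨m, k⟩
    have hk : f (k : Fin n → R) = 0 := k.2
    apply Prod.ext
    · show f (s m + k) = m
      rw [map_add, hs', hk, add_zero]
    · apply Subtype.ext
      show (s m + k) - s (f (s m + k)) = k
      rw [map_add, hs', hk, add_zero, add_sub_cancel_left]

/-- **Rank one cancellation.** -/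
theorem principal_of_cancel (I : Ideal R) (M : Type*) [AddCommGroup M] [Module R M]
    [Module.Finite R M] [Module.Projective R M] (e : (R × M) ≃ₗ[R] (I × M)) :
    ∃ d ∈ I, ∀ x ∈ I, ∃ y, x = d * y := by
  obtain ⟨n, N, ⟨g⟩⟩ := exists_compl (R := R) M
  refine principal_of_equiv (n := n) I ?_
  exact (LinearEquiv.prodCongr (LinearEquiv.refl R R) g.symm).trans
    ((LinearEquiv.prodAssoc R R M N).symm.trans
      ((LinearEquiv.prodCongr e (LinearEquiv.refl R N)).trans
        ((LinearEquiv.prodAssoc R I M N).trans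
          (LinearEquiv.prodCongr (LinearEquiv.refl R I) g))))

end ring

universe v u

variable {C : Type u} [Category.{v} C] [Preadditive C]

/-- The `R`-module structure on `Hom(A, V)` by precomposition, where `R = End A`. -/
@[reducible] def homMod {A : C} (R : Type) [CommRing R] (r : R ≃+ (A ⟶ A))
    (hr : ∀ x y, r (x * y) = r x ≫ r y) (h1 : r 1 = 𝟙 A) (V : C) : Module R (A ⟶ V) where
  smul x f := r x ≫ f
  one_smul f := by
    show r 1 ≫ f = f
    rw [h1, Category.id_comp]
  mul_smul x y f := by
    show r (x * y) ≫ f = r x ≫ r y ≫ f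
    rw [hr, Category.assoc]
  smul_zero x := Limits.comp_zero
  smul_add x f g := Preadditive.comp_add _ _ _ _ _ _
  add_smul x y f := by
    show r (x + y) ≫ f = r x ≫ f + r y ≫ f
    rw [map_add, Preadditive.add_comp]
  zero_smul f := by
    show r 0 ≫ f = 0
    rw [map_zero, Limits.zero_comp]

/-- Isomorphism from cancellation when `End A` is a Dedekind domain. -/
theorem MatIso.exists_iso_ded {A B U : C} (m : MatIso A B U)
    (R : Type) [CommRing R] [IsDedekindDomain R] (r : R ≃+ (A ⟶ A))
    (hr : ∀ x y, r (x * y) = r x ≫ r y)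
    (hA : Module.Finite ℤ (A ⟶ A)) (hU : Module.Finite ℤ (A ⟶ U))
    (htf : ∀ (n : ℤ) (f : A ⟶ U), n ≠ 0 → n • f = 0 → f = 0)
    (h1 : (𝟙 A : A ⟶ A) ≠ 0)
    (hABA : ∀ (f : A ⟶ B) (g : B ⟶ A), f ≫ g = 0 → f = 0 ∨ g = 0)
    (hABB : ∀ (f : A ⟶ B) (g : B ⟶ B), f ≫ g = 0 → f = 0 ∨ g = 0) :
    ∃ (f : A ⟶ B) (g : B ⟶ A), f ≫ g = 𝟙 A ∧ g ≫ f = 𝟙 B := by
  have hcomm : ∀ x y : A ⟶ A, x ≫ y = y ≫ x := by
    intro x y
    obtain ⟨a, rfl⟩ := r.surjective x
    obtain ⟨b, rfl⟩ := r.surjective y
    rw [← hr, ← hr, mul_comm]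
  have hr1 : r 1 = 𝟙 A := by
    obtain ⟨a, ha⟩ := r.surjective (𝟙 A)
    have := hr 1 a
    rw [one_mul, ha, Category.comp_id] at this
    exact this.symm
  -- the ideal of sums of composites
  let S : Set (A ⟶ A) := {x | ∃ (f : A ⟶ B) (g : B ⟶ A), x = f ≫ g}
  let K : AddSubgroup (A ⟶ A) := AddSubgroup.closure S
  have hrK : ∀ x ∈ K, ∀ y : A ⟶ A, x ≫ y ∈ K := by
    intro x hx y
    induction hx using AddSubgroup.closure_induction with
    | mem x hx =>
      obtain ⟨f, g, rfl⟩ := hx
      exact AddSubgroup.subset_closure ⟨f, g ≫ y, by simp⟩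
    | zero => rw [Limits.zero_comp]; exact K.zero_mem
    | add x z _ _ hx hz => rw [Preadditive.add_comp]; exact K.add_mem hx hz
    | neg x _ hx => rw [Preadditive.neg_comp]; exact K.neg_mem hx
  have hK : K = ⊤ := m.top_of_comp hA hU K hrK
    (fun f g => AddSubgroup.subset_closure ⟨f, g, rfl⟩)
  -- nonzero morphisms in both directions
  obtain ⟨f0, g0, hfg0⟩ : ∃ (f0 : A ⟶ B) (g0 : B ⟶ A), f0 ≫ g0 ≠ 0 := by
    by_contra hcon
    push Not at hcon
    have : ∀ x ∈ K, x = 0 := by
      intro x hx
      induction hx using AddSubgroup.closure_induction with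
      | mem x hx =>
        obtain ⟨f, g, rfl⟩ := hx
        exact hcon f g
      | zero => rfl
      | add x z _ _ hx hz => rw [hx, hz, add_zero]
      | neg x _ hx => rw [hx, neg_zero]
    exact h1 (this _ (by rw [hK]; trivial))
  have hg0 : g0 ≠ 0 := by rintro rfl; exact hfg0 (by simp)
  -- module structures
  let mB : Module R (A ⟶ B) := homMod R r hr hr1 B
  let mU : Module R (A ⟶ U) := homMod R r hr hr1 U
  have hsB : ∀ (x : R) (f : A ⟶ B), x • f = r x ≫ f := fun _ _ => rfl
  have hsU : ∀ (x : R) (f : A ⟶ U), x • f = r x ≫ f := fun _ _ => rfl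
  have hzU : ∀ (n : ℤ) (f : A ⟶ U), ((n : R)) • f = n • f := by
    intro n f
    rw [Int.cast_smul_eq_zsmul]
  have : Module.Finite ℤ R := Module.Finite.equiv r.symm.toIntLinearEquiv
  have hfin : Module.Finite R (A ⟶ U) := Module.Finite.of_restrictScalars_finite ℤ R _
  have htor : Module.IsTorsionFree R (A ⟶ U) := by
    rw [Module.isTorsionFree_iff_smul_eq_zero]
    intro x f hxf
    by_cases hx : x = 0
    · exact Or.inl hx
    right
    have hint : IsIntegral ℤ x := Algebra.IsIntegral.isIntegral x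
    have h2 := Ideal.comap_ne_bot_of_integral_mem (R := ℤ) hx
      (Ideal.mem_span_singleton_self x) hint
    obtain ⟨n, hn, hn0⟩ := Submodule.exists_mem_ne_zero_of_ne_bot h2
    rw [Ideal.mem_comap, Ideal.mem_span_singleton] at hn
    obtain ⟨y, hy⟩ := hn
    apply htf n f hn0
    rw [← hzU]
    have hy' : (n : R) = x * y := hy
    rw [hy', mul_comm, mul_smul, hxf, smul_zero]
  have hfp : Module.FinitePresentation R (A ⟶ U) := Module.finitePresentation_of_finite R _
  have hproj : Module.Projective R (A ⟶ U) := Module.Flat.projective_of_finitePresentation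
  -- `Hom(A, B)` as an ideal
  let ι : (A ⟶ B) →ₗ[R] R :=
    { toFun := fun f => r.symm (f ≫ g0)
      map_add' := by
        intro f f'
        rw [Preadditive.add_comp, map_add]
      map_smul' := by
        intro x f
        rw [hsB, RingHom.id_apply, smul_eq_mul]
        apply r.injective
        rw [hr, AddEquiv.apply_symm_apply, AddEquiv.apply_symm_apply, Category.assoc] }
  have hι : Function.Injective ι := by
    intro f f' h
    have h3 : f ≫ g0 = f' ≫ g0 := r.symm.injective h
    have h4 : (f - f') ≫ g0 = 0 := by rw [Preadditive.sub_comp, h3, sub_self]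
    rcases hABA _ _ h4 with h5 | h5
    · exact sub_eq_zero.mp h5
    · exact absurd h5 hg0
  let I : Ideal R := LinearMap.range ι
  let eI : (A ⟶ B) ≃ₗ[R] I := LinearEquiv.ofInjective ι hι
  -- the isomorphism of modules
  let eA : R ≃+ (A ⟶ A) := r
  let e0 : (R × (A ⟶ U)) ≃ₗ[R] ((A ⟶ B) × (A ⟶ U)) :=
    { toFun := fun x => m.homEquiv (r x.1, x.2)
      map_add' := by
        intro x y
        rw [← map_add]
        congr 1
        ext
        · exact map_add r _ _
        · rfl
      map_smul' := by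
        intro x y
        have h6 : r (x * y.1) ≫ m.a + (r x ≫ y.2) ≫ m.b
            = r x ≫ (r y.1 ≫ m.a + y.2 ≫ m.b) := by
          rw [hr, Preadditive.comp_add, Category.assoc, Category.assoc]
        have h7 : r (x * y.1) ≫ m.c + (r x ≫ y.2) ≫ m.d
            = r x ≫ (r y.1 ≫ m.c + y.2 ≫ m.d) := by
          rw [hr, Preadditive.comp_add, Category.assoc, Category.assoc]
        exact Prod.ext h6 h7
      invFun := fun y => (r.symm (m.homEquiv.symm y).1, (m.homEquiv.symm y).2)
      left_inv := by
        intro x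
        simp
      right_inv := by
        intro y
        simp }
  obtain ⟨d, hd, hdgen⟩ := principal_of_cancel I (A ⟶ U)
    (e0.trans (LinearEquiv.prodCongr eI (LinearEquiv.refl R _)))
  obtain ⟨φ, hφ⟩ := hd
  have hφ' : ∀ f : A ⟶ B, ∃ y : A ⟶ A, f = y ≫ φ := by
    intro f
    obtain ⟨y, hy⟩ := hdgen (ι f) ⟨f, rfl⟩
    refine ⟨r y, ?_⟩
    rw [← hsB]
    apply hι
    rw [map_smul, hφ, hy, smul_eq_mul, mul_comm]
  -- every element of K is a multiple of φ
  have hmul : ∀ x ∈ K, ∃ g : B ⟶ A, x = φ ≫ g := by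
    intro x hx
    induction hx using AddSubgroup.closure_induction with
    | mem x hx =>
      obtain ⟨f, g, rfl⟩ := hx
      obtain ⟨y, rfl⟩ := hφ' f
      refine ⟨g ≫ y, ?_⟩
      calc (y ≫ φ) ≫ g = y ≫ (φ ≫ g) := by simp
        _ = (φ ≫ g) ≫ y := hcomm _ _
        _ = φ ≫ g ≫ y := by simp
    | zero => exact ⟨0, by simp⟩
    | add x z _ _ hx hz =>
      obtain ⟨e, rfl⟩ := hx
      obtain ⟨e', rfl⟩ := hz
      exact ⟨e + e', by simp⟩
    | neg x _ hx =>
      obtain ⟨e, rfl⟩ := hx
      exact ⟨-e, by simp⟩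
  obtain ⟨g, hg⟩ := hmul (𝟙 A) (by rw [hK]; trivial)
  refine ⟨φ, g, hg.symm, ?_⟩
  have h8 : φ ≫ (g ≫ φ - 𝟙 B) = 0 := by
    rw [Preadditive.comp_sub, Category.comp_id, ← Category.assoc, ← hg, Category.id_comp,
      sub_self]
  rcases hABB _ _ h8 with h | h
  · exfalso
    apply h1
    rw [hg, h]
    simp
  · exact sub_eq_zero.mp h

end H91.VF
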