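import Pool.Agent.H38.VF.Ded
import Pool.Agent.H91.VF.Can

/-!
# From a stable isomorphism to an isomorphism, `O_X` a Dedekind domain
-/

namespace H91.VF

open CategoryTheory
open scoped TensorProduct

/-- `O_X` is commutative. -/
theorem O_comm (X : Coh) (a b : X.O) : a * b = b * a := by
  let toH : X.O → (X.P ⟶ X.P) := fun e => ⟨e.1, (mem_O_iff e.1).mp e.2⟩
  have h := end_comm (toH b) (toH a)
  have h2 : (a.1 : X.tr →ₗ[ℤ] X.tr) ∘ₗ b.1 = b.1 ∘ₗ a.1 := congrArg Subtype.val h
  exact Subtype.ext h2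

/-- The commutative ring `O_X`. -/
noncomputable abbrev Coh.OComm (X : Coh) : CommRing X.O :=
  { (inferInstance : Ring X.O) with mul_comm := O_comm X }

/-- `O_X` is a Dedekind domain (that is, the maximal order of its field of fractions). -/
def DedO (X : Coh) : Prop := @IsDedekindDomain X.O X.OComm

/-- Endomorphisms of the pair `P(X)` and `O_X`. -/
noncomputable def endEquiv (X : Coh) : X.O ≃+ (X.P ⟶ X.P) where
  toFun e := ⟨e.1, (mem_O_iff e.1).mp e.2⟩
  invFun f := ⟨f.1, (mem_O_iff f.1).mpr f.2⟩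
  left_inv _ := rfl
  right_inv _ := rfl
  map_add' _ _ := rfl

theorem endEquiv_mul (X : Coh) (a b : X.O) :
    endEquiv X (a * b) = endEquiv X a ≫ endEquiv X b := by
  rw [O_comm]
  rfl

theorem hom_torsion_free (A B : PObj) (n : ℤ) (f : A ⟶ B) (hn : n ≠ 0) (h : n • f = 0) :
    f = 0 := by
  apply PObj.hom_ext
  have h1 : n • (show A.C →ₗ[ℤ] B.C from f.1) = 0 := congrArg Subtype.val h
  apply LinearMap.ext
  intro x
  have h2 := LinearMap.congr_fun h1 x
  rw [LinearMap.smul_apply, LinearMap.zero_apply] at h2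
  exact (smul_eq_zero.mp h2).resolve_left hn

/-- From a stable isomorphism to an isomorphism of transcendental lattices with duals. -/
theorem iso_of_stable_ded {X Y : Coh} (h : StablyIso X.hodge Y.hodge) (hD : DedO X) :
    ∃ φ : X.tr ≃ₗ[ℤ] Y.tr, IsHodge X Y φ.toLinearMap ∧ IsHodge Y X φ.symm.toLinearMap ∧
      (∀ (k : ℤ) (t : X.tr), (∀ t' : X.tr, k ∣ X.q t t') → ∀ t' : Y.tr, k ∣ Y.q (φ t) t') ∧
      (∀ (k : ℤ) (t : Y.tr), (∀ t' : Y.tr, k ∣ Y.q t t') → ∀ t' : X.tr,
        k ∣ X.q (φ.symm t) t') := by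
  obtain ⟨U, i1, i2, i3, K, _, g, hg⟩ := h
  have h1 : FHom (sumFam X.hodge.H K.H) (sumFam Y.hodge.H K.H) g.toLinearMap := by
    intro p x hx
    have : g.toLinearMap.baseChange ℂ x ∈ (X.hodge.sumH K p).map (g.toLinearMap.baseChange ℂ) :=
      ⟨x, hx, rfl⟩
    rw [hg p] at this
    exact this
  have h2 : FHom (sumFam Y.hodge.H K.H) (sumFam X.hodge.H K.H) g.symm.toLinearMap := by
    intro p x hx
    have h3 : x ∈ (X.hodge.sumH K p).map (g.toLinearMap.baseChange ℂ) := by
      rw [hg p]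
      exact hx
    obtain ⟨z, hz, rfl⟩ := h3
    rw [← LinearMap.comp_apply, ← LinearMap.baseChange_comp]
    have h4 : g.symm.toLinearMap ∘ₗ g.toLinearMap = LinearMap.id := by
      ext x <;> simp
    rw [h4, LinearMap.baseChange_id]
    exact hz
  have m : MatIso (PObj.of X.V X.hodge.H) (PObj.of Y.V Y.hodge.H) (PObj.of U K.H) :=
    matIso g h1 h2
  rw [X.of_eq, Y.of_eq] at m
  let iC : CommRing X.O := X.OComm
  let iD : IsDedekindDomain X.O := hD
  obtain ⟨f, f', hff', hf'f⟩ := m.exists_iso_ded X.O (endEquiv X) (endEquiv_mul X)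
    (PObj.finite_hom _ _) (PObj.finite_hom _ _) (hom_torsion_free _ _) (id_ne_zero X)
    comp_eq_zero comp_eq_zero
  let F : X.tr →ₗ[ℤ] Y.tr := f.1
  let F' : Y.tr →ₗ[ℤ] X.tr := f'.1
  have e1 : F' ∘ₗ F = LinearMap.id := congrArg Subtype.val hff'
  have e2 : F ∘ₗ F' = LinearMap.id := congrArg Subtype.val hf'f
  refine ⟨LinearEquiv.ofLinearMap F F' e2 e1, ?_, ?_, ?_, ?_⟩
  · exact hom_hodge f
  · exact hom_hodge f'
  · exact hom_dual f
  · exact hom_dual f'

/-- No zero divisors in `O_X`. -/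
theorem O_mul_eq_zero (X : Coh) (a b : X.O) (h : a * b = 0) : a = 0 ∨ b = 0 := by
  have h1 : endEquiv X a ≫ endEquiv X b = 0 := by
    rw [← endEquiv_mul, h, map_zero]
  rcases comp_eq_zero _ _ h1 with h2 | h2
  · left
    exact (endEquiv X).injective (by rw [h2, map_zero])
  · right
    exact (endEquiv X).injective (by rw [h2, map_zero])

theorem O_nontrivial (X : Coh) : (1 : X.O) ≠ 0 := by
  intro h
  apply id_ne_zero X
  have h1 := congrArg (endEquiv X) h
  rw [map_zero] at h1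
  exact h1

/-- A principal ideal ring `O_X` is a Dedekind domain. -/
theorem ded_of_pir (X : Coh) (hP : IsPrincipalIdealRing X.O) : DedO X := by
  let iC : CommRing X.O := X.OComm
  have hnt : Nontrivial X.O := ⟨⟨1, 0, O_nontrivial X⟩⟩
  have hnz : NoZeroDivisors X.O := ⟨fun {a b} h => O_mul_eq_zero X a b h⟩
  have hdom : IsDomain X.O := NoZeroDivisors.to_isDomain X.O
  have hP' : IsPrincipalIdealRing X.O := hP
  show IsDedekindDomain X.O
  infer_instance

end H91.VF
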